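import Pool.Agent.H52.V.S8.H692R2.USS.Iface
import Pool.Agent.H52.V.S8.Helper601.BT

set_option autoImplicit false

/-!
# Task T1: Brun-Titchmarsh for all moduli, residue class 1, dyadic form (helper379)
-/

namespace Pool.Agent.H692R2.USS

open Finset Nat ArithmeticFunction BoundingSieve Pool.Agent.Helper601

theorem t1_sum_sieve (R : ℕ) (P : Finset ℕ) (hP : ∀ p ∈ P, p.Prime) :
    (∏ p ∈ P, (1 - (p : ℝ)⁻¹)) * (∑ n ∈ Finset.Icc 1 R, (n : ℝ)⁻¹) ≤
      ∑ n ∈ (Finset.Icc 1 R).filter (fun n => ∀ p ∈ P, ¬ p ∣ n), (n : ℝ)⁻¹ := by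
  classical
  induction P using Finset.induction_on with
  | empty => simp
  | insert p P hpP ih =>
    have ih' := ih (fun r hr => hP r (Finset.mem_insert_of_mem hr))
    have hp : p.Prime := hP p (Finset.mem_insert_self _ _)
    have hp1 : (1 : ℝ) < p := by exact_mod_cast hp.one_lt
    rw [Finset.prod_insert hpP]
    set S : Finset ℕ := (Finset.Icc 1 R).filter (fun n => ∀ r ∈ P, ¬ r ∣ n) with hS
    have hsplit := Finset.sum_filter_add_sum_filter_not S (fun n => ¬ p ∣ n)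
      (fun n : ℕ => (n : ℝ)⁻¹)
    have e1 : S.filter (fun n => ¬ p ∣ n) =
        (Finset.Icc 1 R).filter (fun n => ∀ r ∈ insert p P, ¬ r ∣ n) := by
      ext n
      simp only [hS, Finset.mem_filter, Finset.mem_insert, forall_eq_or_imp]
      tauto
    rw [e1] at hsplit
    have h1 : (∑ n ∈ S.filter (fun n => ¬ ¬ p ∣ n), (n : ℝ)⁻¹) ≤
        (p : ℝ)⁻¹ * ∑ n ∈ S, (n : ℝ)⁻¹ := by
      rw [Finset.mul_sum]
      have h2 : S.filter (fun n => ¬ ¬ p ∣ n) ⊆ S.image (fun m => p * m) := by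
        intro n hn
        rw [Finset.mem_filter, not_not] at hn
        obtain ⟨hnS, m, rfl⟩ := hn
        rw [Finset.mem_image]
        refine ⟨m, ?_, rfl⟩
        rw [hS, Finset.mem_filter, Finset.mem_Icc] at hnS ⊢
        have hm : 0 < m := by
          rcases Nat.eq_zero_or_pos m with h | h
          · subst h; simp at hnS
          · exact h
        refine ⟨⟨hm, le_trans (Nat.le_mul_of_pos_left m hp.pos) hnS.1.2⟩, ?_⟩
        intro r hr hrm
        exact hnS.2 r hr (hrm.mul_left p)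
      refine (Finset.sum_le_sum_of_subset_of_nonneg h2 (fun _ _ _ => by positivity)).trans ?_
      rw [Finset.sum_image (by
        intro x _ y _ hxy
        exact Nat.eq_of_mul_eq_mul_left hp.pos hxy)]
      apply le_of_eq
      apply Finset.sum_congr rfl
      intro m _
      push_cast
      rw [mul_inv]
    have h3 : 0 ≤ 1 - (p : ℝ)⁻¹ := by
      have : (p : ℝ)⁻¹ < 1 := inv_lt_one_of_one_lt₀ hp1
      linarith
    have h4 := mul_le_mul_of_nonneg_left ih' h3
    nlinarith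

theorem t1_sum_inv_coprime_ge {q : ℕ} (hq : 1 ≤ q) (R : ℕ) :
    ((Nat.totient q : ℝ) / q) * (∑ n ∈ Finset.Icc 1 R, (n : ℝ)⁻¹) ≤
    (∑ n ∈ (Finset.Icc 1 R).filter (fun n => Nat.Coprime n q), (n : ℝ)⁻¹) := by
  classical
  have h := t1_sum_sieve R q.primeFactors (fun p hp => (Nat.mem_primeFactors.mp hp).1)
  have hq0 : (q : ℝ) ≠ 0 := by positivity
  have e1 : ((Nat.totient q : ℝ) / q) = ∏ p ∈ q.primeFactors, (1 - (p : ℝ)⁻¹) := by
    have h1 := Nat.totient_eq_mul_prod_factors q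
    have h2 : ((Nat.totient q : ℚ) : ℝ) = ((q * ∏ p ∈ q.primeFactors, (1 - (p : ℚ)⁻¹) : ℚ) : ℝ) := by
      rw [h1]
    push_cast at h2
    rw [h2]
    field_simp
  rw [e1]
  refine h.trans (le_of_eq ?_)
  apply Finset.sum_congr _ (fun _ _ => rfl)
  ext n
  simp only [Finset.mem_filter, and_congr_right_iff]
  intro _
  constructor
  · intro h1
    rw [Nat.coprime_iff_gcd_eq_one]
    by_contra hne
    obtain ⟨p, hp, hpd⟩ := Nat.exists_prime_and_dvd hne
    exact h1 p (Nat.mem_primeFactors.mpr ⟨hp, hpd.trans (Nat.gcd_dvd_right _ _), by omega⟩)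
      (hpd.trans (Nat.gcd_dvd_left _ _))
  · intro h1 p hp hpn
    have hp' := Nat.mem_primeFactors.mp hp
    have := Nat.dvd_gcd hpn hp'.2.1
    rw [h1] at this
    exact hp'.1.one_lt.ne' (Nat.dvd_one.mp this)

theorem t1_selS_ge_log {a q N R : ℕ} (hq : 1 ≤ q) :
    ((Nat.totient q : ℝ) / q) * Real.log ((R : ℝ) + 1) / 2 ≤ selS (apSieve a q N R) R := by
  have h1 := selS_ge a q N R
  have h2 := sum_inv_le_two_mul q R
  have h3 := t1_sum_inv_coprime_ge hq R
  have h4 := log_add_one_le_harmonic R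
  rw [harmonic_eq_sum_Icc] at h4
  push_cast at h4
  have h5 : 0 ≤ (Nat.totient q : ℝ) / q := by positivity
  have h6 := mul_le_mul_of_nonneg_left h4 h5
  linarith

theorem t1_bt_aux {a q N R : ℕ} (hq : 1 ≤ q) (hR : 1 ≤ R) :
    (((Finset.range N).filter (fun k => (a + k * q).Prime)).card : ℝ) ≤
      ((q : ℝ) / Nat.totient q) * (2 * N / Real.log ((R : ℝ) + 1)) + (R : ℝ) ^ 4 + (R + 1) := by
  have hR' : (1 : ℝ) ≤ R := by exact_mod_cast hR
  have hq' : (0 : ℝ) < q := by exact_mod_cast hq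
  have htot : (0 : ℝ) < Nat.totient q := by exact_mod_cast Nat.totient_pos.mpr hq
  have h1 := sifted_ge (a := a) (q := q) (N := N) (R := R) hq
  have h2 := siftedSum_le_selberg (apSieve a q N R) (R : ℝ) hR' 1 zero_le_one
    (fun d hd => apSieve_rem hq hd)
  have h3 := t1_selS_ge_log (a := a) (N := N) (R := R) hq
  have hlog : 0 < Real.log ((R : ℝ) + 1) := Real.log_pos (by linarith)
  have h4 : (apSieve a q N R).totalMass / selS (apSieve a q N R) R ≤
      ((q : ℝ) / Nat.totient q) * (2 * N / Real.log ((R : ℝ) + 1)) := by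
    change (N : ℝ) / _ ≤ _
    have : (N : ℝ) / selS (apSieve a q N R) R ≤
        (N : ℝ) / (((Nat.totient q : ℝ) / q) * Real.log ((R : ℝ) + 1) / 2) := by
      apply div_le_div_of_nonneg_left (by positivity) (by positivity) h3
    refine this.trans (le_of_eq ?_)
    field_simp
  have h5 : (∑ d ∈ (divisors (apSieve a q N R).prodPrimes).filter (fun d : ℕ => (d : ℝ) ≤ R),
      ((apSieve a q N R).nu d)⁻¹) ≤ (R : ℝ) ^ 2 := by
    have h6 : (divisors (apSieve a q N R).prodPrimes).filter (fun d : ℕ => (d : ℝ) ≤ R) ⊆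
        Finset.Icc 1 R := by
      intro d hd
      rw [Finset.mem_filter, Nat.mem_divisors] at hd
      rw [Finset.mem_Icc]
      refine ⟨Nat.pos_of_ne_zero (ne_zero_of_dvd_ne_zero hd.1.2 hd.1.1), by exact_mod_cast hd.2⟩
    calc (∑ d ∈ (divisors (apSieve a q N R).prodPrimes).filter (fun d : ℕ => (d : ℝ) ≤ R),
          ((apSieve a q N R).nu d)⁻¹)
        = ∑ d ∈ (divisors (apSieve a q N R).prodPrimes).filter (fun d : ℕ => (d : ℝ) ≤ R),
          (d : ℝ) := by
          apply Finset.sum_congr rfl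
          intro d _
          change ((d : ℝ)⁻¹)⁻¹ = d
          rw [inv_inv]
      _ ≤ ∑ d ∈ Finset.Icc 1 R, (d : ℝ) :=
          Finset.sum_le_sum_of_subset_of_nonneg h6 (fun _ _ _ => by positivity)
      _ ≤ ∑ d ∈ Finset.Icc 1 R, (R : ℝ) := by
          apply Finset.sum_le_sum
          intro d hd
          exact_mod_cast (Finset.mem_Icc.mp hd).2
      _ = (R : ℝ) ^ 2 := by simp; ring
  have h7 : 0 ≤ (∑ d ∈ (divisors (apSieve a q N R).prodPrimes).filter (fun d : ℕ => (d : ℝ) ≤ R),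
      ((apSieve a q N R).nu d)⁻¹) := by
    apply Finset.sum_nonneg
    intro d _
    change 0 ≤ ((d : ℝ)⁻¹)⁻¹
    positivity
  have h8 : (∑ d ∈ (divisors (apSieve a q N R).prodPrimes).filter (fun d : ℕ => (d : ℝ) ≤ R),
      ((apSieve a q N R).nu d)⁻¹) ^ 2 ≤ (R : ℝ) ^ 4 := by
    calc _ ≤ ((R : ℝ) ^ 2) ^ 2 := by gcongr
      _ = (R : ℝ) ^ 4 := by ring
  linarith

/-- Brun-Titchmarsh inequality with an explicit but crude constant, for every modulus. -/
theorem t1_brun_titchmarsh (a q N : ℕ) (hN : 2 ≤ N) (hq : 1 ≤ q) :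
    (((Finset.range N).filter (fun k => (a + k * q).Prime)).card : ℝ) ≤
      22 * ((q : ℝ) / Nat.totient q) * N / Real.log N := by
  have hN' : (2 : ℝ) ≤ N := by exact_mod_cast hN
  have hN0 : (0 : ℝ) < N := by linarith
  have hlogN : 0 < Real.log N := Real.log_pos (by linarith)
  have hq' : (0 : ℝ) < q := by exact_mod_cast hq
  have htot : (0 : ℝ) < Nat.totient q := by exact_mod_cast Nat.totient_pos.mpr hq
  have hr1 : (1 : ℝ) ≤ (q : ℝ) / Nat.totient q := by
    rw [one_le_div htot]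
    exact_mod_cast Nat.totient_le q
  set ρ : ℝ := (q : ℝ) / Nat.totient q with hρ
  set x : ℝ := (N : ℝ) ^ ((1 : ℝ) / 8) with hx
  have hx1 : 1 ≤ x := Real.one_le_rpow (by linarith) (by norm_num)
  have hR : 1 ≤ ⌊x⌋₊ := Nat.floor_pos.mpr hx1
  have h := t1_bt_aux (a := a) (N := N) (R := ⌊x⌋₊) hq hR
  rw [← hρ] at h
  have hfl : (⌊x⌋₊ : ℝ) ≤ x := Nat.floor_le (by linarith)
  have hfl2 : x < (⌊x⌋₊ : ℝ) + 1 := Nat.lt_floor_add_one x
  have hlogx : Real.log x = Real.log N / 8 := by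
    rw [hx, Real.log_rpow hN0]; ring
  have hlog2 : Real.log N / 8 ≤ Real.log ((⌊x⌋₊ : ℝ) + 1) := by
    rw [← hlogx]
    exact Real.log_le_log (by linarith) hfl2.le
  have hx4 : x ^ 4 = Real.sqrt N := by
    rw [hx, ← Real.rpow_natCast, ← Real.rpow_mul hN0.le, Real.sqrt_eq_rpow]
    norm_num
  have hsq : 0 < Real.sqrt N := Real.sqrt_pos.mpr hN0
  have hsq2 : Real.sqrt N * Real.sqrt N = N := Real.mul_self_sqrt hN0.le
  have hlogsq : Real.log N ≤ 2 * Real.sqrt N := by
    have h1 : Real.log (Real.sqrt N) ≤ Real.sqrt N - 1 := Real.log_le_sub_one_of_pos hsq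
    rw [Real.log_sqrt hN0.le] at h1
    linarith
  have h1 : 2 * (N : ℝ) / Real.log ((⌊x⌋₊ : ℝ) + 1) ≤ 16 * N / Real.log N := by
    have : 2 * (N : ℝ) / Real.log ((⌊x⌋₊ : ℝ) + 1) ≤ 2 * (N : ℝ) / (Real.log N / 8) := by
      apply div_le_div_of_nonneg_left (by positivity) (by positivity) hlog2
    refine this.trans (le_of_eq ?_)
    field_simp
    norm_num
  have h1' : ρ * (2 * (N : ℝ) / Real.log ((⌊x⌋₊ : ℝ) + 1)) ≤ ρ * (16 * N / Real.log N) :=
    mul_le_mul_of_nonneg_left h1 (by linarith)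
  have h2 : (⌊x⌋₊ : ℝ) ^ 4 ≤ Real.sqrt N := by
    rw [← hx4]; gcongr
  have h3 : (⌊x⌋₊ : ℝ) + 1 ≤ 2 * Real.sqrt N := by
    have : x ≤ x ^ 4 := by
      nlinarith [mul_nonneg (sub_nonneg.mpr hx1) (by positivity : (0:ℝ) ≤ x * (x^2 + x + 1))]
    rw [hx4] at this
    linarith
  have h4 : 3 * Real.sqrt N ≤ 6 * N / Real.log N := by
    rw [le_div_iff₀ hlogN]
    nlinarith
  have h4' : 6 * (N : ℝ) / Real.log N ≤ ρ * (6 * N / Real.log N) := by
    have : 0 ≤ 6 * (N : ℝ) / Real.log N := by positivity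
    nlinarith
  have h5 : 22 * ρ * (N : ℝ) / Real.log N =
      ρ * (16 * N / Real.log N) + ρ * (6 * N / Real.log N) := by ring
  linarith

theorem bt : BT := by
  refine ⟨88, by norm_num, ?_⟩
  intro q l hq
  have hq' : (0 : ℝ) < q := by exact_mod_cast hq
  have htot : (0 : ℝ) < Nat.totient q := by exact_mod_cast Nat.totient_pos.mpr hq
  have hr1 : (1 : ℝ) ≤ (q : ℝ) / Nat.totient q := by
    rw [one_le_div htot]
    exact_mod_cast Nat.totient_le q
  have hcard : ((Finset.Ico (2 ^ l) (2 ^ (l + 1))).filter (fun k => (q * k + 1).Prime)).card ≤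
      ((Finset.range (2 ^ l)).filter (fun k => ((q * 2 ^ l + 1) + k * q).Prime)).card := by
    apply Finset.card_le_card_of_injOn (fun k => k - 2 ^ l)
    · intro k hk
      simp only [Finset.coe_filter, Set.mem_setOf_eq, Finset.mem_Ico, Finset.mem_range] at hk ⊢
      refine ⟨?_, ?_⟩
      · have := hk.1.2
        rw [pow_succ] at this
        omega
      · have h1 : q * 2 ^ l + 1 + (k - 2 ^ l) * q = q * k + 1 := by
          obtain ⟨j, rfl⟩ := Nat.exists_eq_add_of_le hk.1.1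
          rw [Nat.add_sub_cancel_left]
          ring
        rw [h1]
        exact hk.2
    · intro x hx y hy hxy
      simp only [Finset.coe_filter, Set.mem_setOf_eq, Finset.mem_Ico] at hx hy hxy
      omega
  have hcard' : (((Finset.Ico (2 ^ l) (2 ^ (l + 1))).filter (fun k => (q * k + 1).Prime)).card : ℝ)
      ≤ (((Finset.range (2 ^ l)).filter (fun k => ((q * 2 ^ l + 1) + k * q).Prime)).card : ℝ) := by
    exact_mod_cast hcard
  rcases Nat.eq_zero_or_pos l with rfl | hl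
  · have h1 : ((Finset.range (2 ^ 0)).filter (fun k => ((q * 2 ^ 0 + 1) + k * q).Prime)).card ≤ 1 := by
      refine (Finset.card_filter_le _ _).trans ?_
      simp
    have h2 : (((Finset.range (2 ^ 0)).filter (fun k => ((q * 2 ^ 0 + 1) + k * q).Prime)).card : ℝ)
        ≤ 1 := by exact_mod_cast h1
    refine hcard'.trans (h2.trans ?_)
    norm_num
    linarith
  · have h2l : 2 ≤ 2 ^ l := by
      calc 2 = 2 ^ 1 := by norm_num
        _ ≤ 2 ^ l := Nat.pow_le_pow_right (by norm_num) hl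
    have h1 := t1_brun_titchmarsh (q * 2 ^ l + 1) q (2 ^ l) h2l hq
    refine hcard'.trans (h1.trans ?_)
    push_cast
    rw [Real.log_pow]
    have hl' : (1 : ℝ) ≤ l := by exact_mod_cast hl
    have hlog2 : (1 : ℝ) / 2 < Real.log 2 := by
      have := Real.log_two_gt_d9
      linarith
    have hpos : 0 < 22 * ((q : ℝ) / Nat.totient q) * 2 ^ l := by positivity
    rw [div_le_div_iff₀ (by positivity) (by positivity)]
    have h3 : (l : ℝ) + 1 ≤ 4 * (l * Real.log 2) := by nlinarith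
    calc 22 * ((q : ℝ) / Nat.totient q) * 2 ^ l * ((l : ℝ) + 1)
        ≤ 22 * ((q : ℝ) / Nat.totient q) * 2 ^ l * (4 * (l * Real.log 2)) :=
          mul_le_mul_of_nonneg_left h3 hpos.le
      _ = 88 * ((q : ℝ) / Nat.totient q) * 2 ^ l * (l * Real.log 2) := by ring

end Pool.Agent.H692R2.USS
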