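import Mathlib

set_option autoImplicit false

/-!
# Universal Skolem sets of density one: definitions
-/

namespace Pool.Agent.H692R2.USS

open Polynomial

/-- `p` splits completely every monic integer polynomial of degree at most `k` with coefficients
in `[-k, k]` (into linear factors modulo `p`). -/
def SplitAll (k p : ℕ) : Prop :=
  ∀ f : ℤ[X], f.Monic → f.natDegree ≤ k → (∀ i, |f.coeff i| ≤ k) →
    (f.map (Int.castRingHom (ZMod p))).Splits

/-- `n` modulo `p` is not a root of a nonzero integer polynomial of degree at most `k` with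
coefficients of absolute value below (about) `p ^ (1 / (4 (k+1)))`. -/
def Generic (k p n : ℕ) : Prop :=
  ∀ f : ℤ[X], f ≠ 0 → f.natDegree ≤ k → (∀ i, |f.coeff i| < 2 ^ (Nat.log 2 p / (4 * (k + 1)))) →
    ¬ (p : ℤ) ∣ f.eval (n : ℤ)

/-- `(p, b)` is a good pair for `n` at level `k`. -/
def GoodPair (k p n b : ℕ) : Prop :=
  p.Prime ∧ SplitAll k p ∧ 4 * k * (k + 1) * (b + 1) ≤ Nat.log 2 p ∧ b ≡ n [MOD p - 1] ∧
    Generic k p n

/-- `n` is good at level `k` with primes up to `i`: there are at least `k` numbers `b` which are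
the residue of `n` modulo `p - 1` for a suitable prime `p ≤ i` with `log p` large compared
with `b`. -/
def Good (i k n : ℕ) : Prop :=
  ∃ B : Finset ℕ, k ≤ B.card ∧ ∀ b ∈ B, ∃ p ≤ i, GoodPair k p n b

/-- The shift `(E u) n = u (n + 1)` on integer sequences. -/
def E (R : Type*) [CommRing R] : Module.End R (ℕ → R) where
  toFun u n := u (n + 1)
  map_add' _ _ := rfl
  map_smul' _ _ := rfl

/-- the sequence `u` satisfies the linear recurrence with characteristic polynomial `g` -/
def Ann {R : Type*} [CommRing R] (g : R[X]) (u : ℕ → R) : Prop := aeval (E R) g u = 0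

end Pool.Agent.H692R2.USS
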