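import Pool.Agent.H52.V.S8.H692R2.USS.Defs

set_option autoImplicit false

/-!
# Universal Skolem sets of density one: interface statements (as `Prop`s) and the set `S`
-/

namespace Pool.Agent.H692R2.USS

open Polynomial Finset
open scoped Classical

/-- Brun-Titchmarsh for the residue class 1, all moduli, dyadic form. -/
def BT : Prop := ∃ C : ℝ, 0 < C ∧ ∀ q l : ℕ, 1 ≤ q →
  (((Finset.Ico (2 ^ l) (2 ^ (l + 1))).filter (fun k => (q * k + 1).Prime)).card : ℝ) ≤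
    C * ((q : ℝ) / (Nat.totient q)) * 2 ^ l / ((l : ℝ) + 1)

/-- dyadic sums of `1 / φ`. -/
def InvTot : Prop := ∃ C : ℝ, 0 < C ∧ ∀ r : ℕ,
  ∑ a ∈ Finset.Ico (2 ^ r) (2 ^ (r + 1)), (1 : ℝ) / (Nat.totient a) ≤ C

/-- the gcd sum over pairs of primes. -/
def GcdSum : Prop := ∃ C : ℝ, 0 < C ∧ ∀ L : ℕ,
  ∑ p' ∈ (Finset.range (2 ^ L)).filter Nat.Prime, ∑ p ∈ (Finset.range p').filter Nat.Prime,
    ((Nat.gcd (p - 1) (p' - 1) : ℕ) : ℝ) /
      (((p : ℝ) - 1) * ((p' : ℝ) - 1) * ((Nat.log 2 p' : ℝ) + 1)) ≤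
    C * (1 + Real.log ((L : ℝ) + 1))

/-- there is a prime ideal of norm `p` in the ring of integers of `K`. -/
def HasDegOne (K : Type*) [Field K] [NumberField K] (p : ℕ) : Prop :=
  ∃ v : IsDedekindDomain.HeightOneSpectrum (NumberField.RingOfIntegers K),
    Ideal.absNorm v.asIdeal = p

/-- lower bound for the reciprocal sum of the primes with a degree one prime of `K` above. -/
def MassK (K : Type*) [Field K] [NumberField K] : Prop := ∃ c C : ℝ, 0 < c ∧ ∀ L : ℕ, 1 ≤ L →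
  c * Real.log L - C ≤
    ∑ p ∈ (Finset.range (2 ^ L)).filter (fun p => p.Prime ∧ HasDegOne K p), (1 : ℝ) / p

/-- lower bound for the reciprocal sum of the primes splitting all small polynomials. -/
def Mass (k : ℕ) : Prop := ∃ c C : ℝ, 0 < c ∧ ∀ L : ℕ, 1 ≤ L →
  c * Real.log L - C ≤
    ∑ p ∈ (Finset.range (2 ^ L)).filter (fun p => p.Prime ∧ SplitAll k p), (1 : ℝ) / p

/-- one block of primes catches almost all `n`. -/
def Block (k : ℕ) : Prop := ∀ (β x : ℕ) (ε : ℝ), 0 < ε → ∃ L : ℕ, ∀ M : ℕ, 0 < M →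
  (∀ p, p.Prime → p < 2 ^ L → (p - 1) ∣ M) →
  (((Finset.range M).filter (fun n => ∀ p, p.Prime → SplitAll k p → x ≤ p → p < 2 ^ L →
    ¬ (β ≤ n % (p - 1) ∧ 4 * k * (k + 1) * (n % (p - 1) + 1) ≤ Nat.log 2 p))).card : ℝ) ≤ ε * M

/-- few `n` are non-generic for large primes. -/
def NonGen (k : ℕ) : Prop := ∀ ε : ℝ, 0 < ε → ∃ x : ℕ, ∀ L M : ℕ, 0 < M →
  (∀ p, p.Prime → p < 2 ^ L → p * (p - 1) ∣ M) →
  (((Finset.range M).filter (fun n => ∃ p, p.Prime ∧ x ≤ p ∧ p < 2 ^ L ∧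
    4 * k * (k + 1) * (n % (p - 1) + 1) ≤ Nat.log 2 p ∧ ¬ Generic k p n)).card : ℝ) ≤ ε * M

/-- almost all `n` are good. -/
def GoodDensity : Prop := ∀ (k : ℕ) (ε : ℝ), 0 < ε → ∃ i0 : ℕ, ∀ i, i0 ≤ i →
  (((Finset.range i.factorial).filter (fun n => ¬ Good i k n)).card : ℝ) ≤ ε * i.factorial

/-- the least `i` such that a proportion at least `1 - 1/(k+1)` of the residue classes modulo `i!`
is good at level `k` with primes up to `i`. -/
noncomputable def iSeq (k : ℕ) : ℕ :=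
  sInf {i | (k + 1) * ((Finset.range i.factorial).filter (fun n => ¬ Good i k n)).card ≤
    i.factorial}

/-- thresholds -/
noncomputable def NSeq : ℕ → ℕ
  | 0 => 0
  | k + 1 => (k + 1) * (NSeq k + (iSeq k).factorial + (iSeq (k + 1)).factorial + 1)

/-- the level of `n`: the largest `k` with `NSeq k ≤ n`. -/
noncomputable def lev (n : ℕ) : ℕ := Nat.findGreatest (fun k => NSeq k ≤ n) n

/-- The universal Skolem set. -/
def S : Set ℕ := {n | Good (iSeq (lev n)) (lev n) n}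

/-- certificate (semantic form): everything in the decomposition of `u` is bounded in terms of
`k`. -/
def Cert (u : ℕ → ℤ) (k : ℕ) : Prop :=
  ∃ (g s t q w : ℤ[X]) (rr : ℤ) (m D p0 T : ℕ) (v : ℕ → ℕ → ℤ),
    g.Monic ∧ g.natDegree ≤ k ∧ (∀ i, |g.coeff i| ≤ k) ∧ g.coeff 0 ≠ 0 ∧
    s * g + t * derivative g = C rr ∧ rr ≠ 0 ∧ |rr| ≤ k ∧
    1 ≤ m ∧ m ≤ k ∧ 1 ≤ D ∧ (∀ j < m, Ann g (v j)) ∧
    (∀ n : ℕ, (D : ℤ) * u n = ∑ j ∈ Finset.range m, (n.choose j : ℤ) * v j n) ∧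
    (∀ j < m, ∀ b : ℕ, (m : ℤ) * m.factorial * |v j b| < 2 ^ (k * (b + 1))) ∧
    p0.Prime ∧ 3 ≤ p0 ∧ 1 ≤ T ∧ T ≤ k ∧ X ^ T - 1 = g * q + C (p0 : ℤ) * w ∧
    (∀ r < T, (∀ j < m, ∀ l, v j (r + T * l) = 0) ∨
      ∃ j < m, ∃ l, v j (r + T * l) ≠ 0 ∧ |v j (r + T * l)| < 3 ^ (k / 2))

end Pool.Agent.H692R2.USS
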